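import Pool.Agent.U597.PC.Rate

/-!
The question Q1 (existence of the rate of binary codes of relative minimum distance delta) for the
codes that are closed under a coordinatewise operation f of any arity: the limit exists and is 0 if
f is not affine, and the largest codes are known exactly; if f is affine and idempotent, the
question is the one for linear codes or the one for all codes.
-/

namespace Pool.Agent.Results.MP_fb48ba_lc.RateWithOperations

open Pool.Agent.U597.PC Filter Topology

/-- Q1 for the codes in the class `P`, with limit `L δ`. -/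
def HasRate (P : (n : ℕ) → Finset (Fin n → Bool) → Prop) (δ L : ℝ) : Prop :=
  Tendsto (fun n : ℕ => Real.logb 2 (maxSize P n ⌊δ * n⌋₊) / n) atTop (𝓝 L)

/-- Q1 for the codes in the class `P`. -/
def RateExists (P : (n : ℕ) → Finset (Fin n → Bool) → Prop) : Prop :=
  ∀ δ : ℝ, 0 < δ → δ < 1 / 2 → ∃ L : ℝ, HasRate P δ L

/-- The codes closed under the operation `f` applied in each coordinate. -/
def ClosedUnder {s : ℕ} (f : (Fin s → Bool) → Bool) (n : ℕ) (C : Finset (Fin n → Bool)) : Prop :=
  Closed (fun _ : Fin n => f) C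

theorem exact {n s d : ℕ} (hd : 1 ≤ d) (hdn : d ≤ n) (f : (Fin s → Bool) → Bool)
    (hf : f (fun _ => false) ≠ f (fun _ => true)) (hna : ¬ IsAffine f) :
    maxSize (ClosedUnder f) n d = 2 ^ (n / d) := by
  classical
  apply le_antisymm
  · apply maxSize_le
    intro C h1 h2
    have hnu : ¬ IsUnary f := by
      intro hu
      apply hna
      obtain ⟨j, hj⟩ := hu
      have hval : ∀ x, f x = f (fun _ => x j) := fun x => hj x (fun _ => x j) rfl
      intro x y z
      rw [hval (fun k => xor (x k) (xor (y k) (z k))), hval x, hval y, hval z]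
      rcases h3 : f (fun _ => false) with _ | _ <;> rcases h4 : f (fun _ => true) with _ | _ <;>
        rw [h3, h4] at hf <;> cases x j <;> cases y j <;> cases z j <;> simp [h3, h4] at hf ⊢
    have key := (structure_theorem (F := fun _ : Fin n => f) (fun _ => hf) h1 d hd h2
      Finset.univ ∅ ∅ (fun i => by simp [hna]) (fun i => by simp [hna])
      (fun i => by simp [hnu])).1
    have hone : (C.image (res (∅ : Finset (Fin n)))).card ≤ 1 := by
      rw [Finset.card_le_one]
      intro a ha b hb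
      obtain ⟨a', -, rfl⟩ := Finset.mem_image.1 ha
      obtain ⟨b', -, rfl⟩ := Finset.mem_image.1 hb
      funext i
      simp [res]
    calc C.card ≤ _ := key
      _ ≤ 2 ^ ((Finset.univ : Finset (Fin n)).card / d) * (1 * 1) :=
        Nat.mul_le_mul_left _ (Nat.mul_le_mul hone hone)
      _ = 2 ^ (n / d) := by simp
  · obtain ⟨C, h1, h2, h3⟩ := blocks f n d hd hdn
    rw [← h3]
    exact le_maxSize (P := ClosedUnder f) C h1 h2

theorem floor_pos {δ : ℝ} (hδ : 0 < δ) : ∀ᶠ n : ℕ in atTop, 1 ≤ ⌊δ * (n : ℝ)⌋₊ := by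
  have hbig : ∀ᶠ n : ℕ in atTop, 1 / δ ≤ (n : ℝ) :=
    (tendsto_natCast_atTop_atTop (R := ℝ)).eventually_ge_atTop (1 / δ)
  filter_upwards [hbig] with n h
  rw [Nat.one_le_floor_iff]
  have := mul_le_mul_of_nonneg_left h hδ.le
  rwa [mul_one_div_cancel hδ.ne'] at this

theorem near {s : ℕ} (f : (Fin s → Bool) → Bool)
    (hf : f (fun _ => false) ≠ f (fun _ => true)) (hna : ¬ IsAffine f) (δ : ℝ) (hδ : 0 < δ)
    (e : ℕ → ℕ) (he : ∀ᶠ n : ℕ in atTop, 256 * e n * n ≤ ⌊δ * n⌋₊ * ⌊δ * n⌋₊) :
    HasRate (fun n C => NearlyClosed f (e n) C) δ 0 := by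
  apply rate_zero δ hδ
  filter_upwards [he, floor_pos hδ] with n h1 h2
  apply maxSize_le
  intro C hC hmin
  have := nearly f hf hna ⌊δ * (n : ℝ)⌋₊ (e n) h2 C hmin hC (by rw [Fintype.card_fin]; exact h1)
  rwa [Fintype.card_fin] at this

theorem closed_nearly {n s : ℕ} (f : (Fin s → Bool) → Bool) (C : Finset (Fin n → Bool))
    (h : ClosedUnder f n C) : NearlyClosed f 0 C := by
  intro x hx
  refine ⟨_, h x hx, ?_⟩
  simp

theorem rate_closed {s : ℕ} (f : (Fin s → Bool) → Bool)
    (hf : f (fun _ => false) ≠ f (fun _ => true)) (hna : ¬ IsAffine f) (δ : ℝ) (hδ : 0 < δ) :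
    HasRate (ClosedUnder f) δ 0 := by
  apply rate_zero δ hδ
  filter_upwards [floor_pos hδ] with n h2
  apply maxSize_le
  intro C hC hmin
  have := nearly f hf hna ⌊δ * (n : ℝ)⌋₊ 0 h2 C hmin (closed_nearly f C hC) (by simp)
  rwa [Fintype.card_fin] at this

open Classical in
theorem result :
    -- no affine operation: exact size, limit 0
    (∀ (s : ℕ) (f : (Fin s → Bool) → Bool), f (fun _ => false) ≠ f (fun _ => true) →
      ¬ IsAffine f →
      (∀ n d : ℕ, 1 ≤ d → d ≤ n → maxSize (ClosedUnder f) n d = 2 ^ (n / d)) ∧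
      (∀ δ : ℝ, 0 < δ → HasRate (ClosedUnder f) δ 0) ∧
      -- also with errors
      (∀ δ : ℝ, 0 < δ → ∀ e : ℕ → ℕ,
        (∀ᶠ n : ℕ in atTop, 256 * e n * n ≤ ⌊δ * n⌋₊ * ⌊δ * n⌋₊) →
        HasRate (fun n C => NearlyClosed f (e n) C) δ 0)) ∧
    -- affine operations: the question for linear codes or for all codes
    (∀ (s : ℕ) (f : (Fin s → Bool) → Bool), (∀ a, f (fun _ => a) = a) → IsAffine f →
      (¬ IsUnary f → (∀ n d : ℕ,
        maxSize (ClosedUnder f) n d = maxSize (fun _ C => IsLinear C) n d) ∧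
        (RateExists (ClosedUnder f) ↔ RateExists fun _ C => IsLinear C)) ∧
      (IsUnary f → (∀ n d : ℕ,
        maxSize (ClosedUnder f) n d = maxSize (fun _ _ => True) n d) ∧
        (RateExists (ClosedUnder f) ↔ RateExists fun _ _ => True))) ∧
    -- different operations in different coordinates
    (∀ (n s d : ℕ), 1 ≤ d → ∀ F : Fin n → (Fin s → Bool) → Bool,
      (∀ i, F i (fun _ => false) ≠ F i (fun _ => true)) →
      ∀ C : Finset (Fin n → Bool), Closed F C → MinDist d C →
      ∀ N L U : Finset (Fin n), (∀ i, i ∈ N ↔ ¬ IsAffine (F i)) →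
      (∀ i, i ∈ L ↔ (IsAffine (F i) ∧ ¬ IsUnary (F i))) → (∀ i, i ∈ U ↔ IsUnary (F i)) →
      C.card ≤ 2 ^ (N.card / d) * ((C.image (res L)).card * (C.image (res U)).card) ∧
      (∀ x ∈ C, ∀ y ∈ C, (∃ i ∈ L, x i ≠ y i) → d ≤ (L.filter fun i => x i ≠ y i).card) ∧
      (∀ x ∈ C, ∀ y ∈ C, (∃ i ∈ U, x i ≠ y i) → d ≤ (U.filter fun i => x i ≠ y i).card) ∧
      (∀ x ∈ C, ∀ y ∈ C, ∃ z ∈ C, (∀ i ∈ L, z i = x i) ∧ (∀ i ∈ U, z i = y i)) ∧
      (∀ x ∈ C, ∀ y ∈ C, ∀ z ∈ C, ∃ w ∈ C, ∀ i ∈ L, w i = xor (x i) (xor (y i) (z i)))) := by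
  refine ⟨?_, ?_, ?_⟩
  · intro s f hf hna
    exact ⟨fun n d hd hdn => exact hd hdn f hf hna, fun δ hδ => rate_closed f hf hna δ hδ,
      fun δ hδ e he => near f hf hna δ hδ e he⟩
  · intro s f hid ha
    refine ⟨fun hnu => ?_, fun hu => ?_⟩
    · have hcl : ∀ (n : ℕ) (C : Finset (Fin n → Bool)), Closed (fun _ => f) C →
          ∀ x ∈ C, ∀ y ∈ C, ∀ z ∈ C, (fun i => xor (x i) (xor (y i) (z i))) ∈ C := by
        intro n C hC x hx y hy z hz
        have hmin : MinDist 1 C := by
          intro a _ b _ hab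
          obtain ⟨i, hi⟩ := Function.ne_iff.1 hab
          exact Finset.card_pos.2 ⟨i, Finset.mem_filter.2 ⟨Finset.mem_univ i, hi⟩⟩
        have key := (structure_theorem (F := fun _ : Fin n => f)
          (fun _ => by rw [hid, hid]; simp) hC 1 le_rfl hmin
          ∅ Finset.univ ∅ (fun i => by simp [ha]) (fun i => by simp [ha, hnu])
          (fun i => by simp [hnu])).2.2.2.2
        obtain ⟨w, hw, hwi⟩ := key x hx y hy z hz
        have : (fun i => xor (x i) (xor (y i) (z i))) = w := by
          funext i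
          exact (hwi i (Finset.mem_univ i)).symm
        rw [this]
        exact hw
      have heq : ∀ n d : ℕ,
          maxSize (ClosedUnder f) n d = maxSize (fun _ C => IsLinear C) n d :=
        fun n d => maxSize_affine f ha hid (hcl n) d
      refine ⟨heq, ?_⟩
      unfold RateExists HasRate
      simp only [heq]
    · have heq : ∀ n d : ℕ,
          maxSize (ClosedUnder f) n d = maxSize (fun _ _ => True) n d :=
        fun n d => maxSize_unary f hu hid d
      refine ⟨heq, ?_⟩
      unfold RateExists HasRate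
      simp only [heq]
  · intro n s d hd F hF C hC hmin N L U hN hL hU
    exact structure_theorem hF hC d hd hmin N L U hN hL hU

end Pool.Agent.Results.MP_fb48ba_lc.RateWithOperations
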